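import Pool.Agent.helper578_fan.Harmonic

/-!
MP_85483e_gt, Q2: for the cone `M` over a compact metrizable space with exactly one limit point
(more generally over a nonempty compact metrizable totally disconnected space), `C(M)` is a
retract of `2^M`.
-/

set_option autoImplicit false

open Filter Topology TopologicalSpace

namespace Pool.Agent.Results.MP_85483e_gt.ConeRetract

universe u

theorem result (Z : Type u) [TopologicalSpace Z] [CompactSpace Z] [MetrizableSpace Z] [Nonempty Z]
    (hZ : TotallyDisconnectedSpace Z ∨ ∃! z : Z, AccPt z (𝓟 (Set.univ : Set Z))) :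
    Helper578.Fan.CIsRetract (Helper578.Fan.Cone Z) := by
  rcases hZ with hZ | hZ
  · exact Helper578.Fan.cone_retract Z
  · have := Helper578.Fan.totallyDisconnected_of_one_limit Z hZ
    exact Helper578.Fan.cone_retract Z

end Pool.Agent.Results.MP_85483e_gt.ConeRetract
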