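import Pool.Agent.helper578_fan.Harmonic

/-!
MP_85483e_gt, Q1: there is a continuum `M` which is not locally connected such that `C(M)` is a
retract of `2^M` (the harmonic fan).
-/

set_option autoImplicit false

namespace Pool.Agent.Results.MP_85483e_gt.NotLocallyConnected

theorem result : ∃ (M : Type) (_ : MetricSpace M), CompactSpace M ∧ ConnectedSpace M ∧
    ¬ LocallyConnectedSpace M ∧ Helper578.Fan.CIsRetract M :=
  ⟨Helper578.Fan.Fan Helper578.Fan.Harm, inferInstance, Helper578.Fan.harmonic_fan⟩

end Pool.Agent.Results.MP_85483e_gt.NotLocallyConnected
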